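import Pool.Agent.Helper25.FN.Spec

set_option autoImplicit false

/-!
# Swarm FN, part FRED: Fredholm alternative (coercive modulo compact)
-/

namespace Pool.Agent.Helper76.FN.FRED

open Module End

theorem fredA (H H₂ : Type) [NormedAddCommGroup H] [InnerProductSpace ℂ H] [CompleteSpace H]
    [NormedAddCommGroup H₂] [InnerProductSpace ℂ H₂] [CompleteSpace H₂]
    (T : H →L[ℂ] H) (K : H →L[ℂ] H₂) (c C : ℝ) (hc : 0 < c) (hK : IsCompactOperator K)
    (hT : ∀ x : H, c * ‖x‖ ^ 2 ≤ (inner ℂ x (T x)).re + C * ‖K x‖ ^ 2)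
    (hi : Function.Injective T) : Function.Surjective T := by
  set D : ℝ := max C 0 with hD
  set N : H →L[ℂ] H := (D : ℂ) • ((ContinuousLinearMap.adjoint K).comp K) with hN
  have hNx : ∀ x, N x = (D : ℂ) • (ContinuousLinearMap.adjoint K) (K x) := fun x => rfl
  have hNi : ∀ x, (inner ℂ x (N x)).re = D * ‖K x‖ ^ 2 := by
    intro x
    rw [hNx, inner_smul_right, ContinuousLinearMap.adjoint_inner_right,
      inner_self_eq_norm_sq_to_K]
    norm_cast
    change ((D : ℂ) * ((‖K x‖ ^ 2 : ℝ) : ℂ)).re = D * ‖K x‖ ^ 2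
    rw [← Complex.ofReal_mul]
    exact Complex.ofReal_re _
  set S : H →L[ℂ] H := T + N with hS
  have hSc : ∀ x, c * ‖x‖ ^ 2 ≤ (inner ℂ x (S x)).re := by
    intro x
    have h1 := hT x
    have h2 : (inner ℂ x (S x)).re = (inner ℂ x (T x)).re + D * ‖K x‖ ^ 2 := by
      rw [hS, add_apply, inner_add_right, Complex.add_re, hNi]
    rw [h2]
    have h3 : C * ‖K x‖ ^ 2 ≤ D * ‖K x‖ ^ 2 :=
      mul_le_mul_of_nonneg_right (le_max_left _ _) (sq_nonneg _)
    linarith
  have hSb : ∀ x, c * ‖x‖ ≤ ‖S x‖ := by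
    intro x
    by_cases hx : x = 0
    · simp [hx]
    have hx' : 0 < ‖x‖ := norm_pos_iff.2 hx
    have h1 := hSc x
    have h2 : (inner ℂ x (S x)).re ≤ ‖x‖ * ‖S x‖ :=
      (Complex.re_le_norm _).trans (norm_inner_le_norm _ _)
    have h3 : c * ‖x‖ * ‖x‖ ≤ ‖S x‖ * ‖x‖ := by nlinarith
    exact le_of_mul_le_mul_right h3 hx'
  have hanti : AntilipschitzWith (c⁻¹.toNNReal) S := by
    refine ContinuousLinearMap.antilipschitz_of_bound S fun x => ?_
    rw [Real.coe_toNNReal _ (inv_nonneg.2 hc.le), ← div_eq_inv_mul, le_div_iff₀ hc, mul_comm]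
    exact hSb x
  have hcl : IsClosed (S.range : Set H) := hanti.isClosed_range S.uniformContinuous
  have hker : S.ker = ⊥ := by
    rw [LinearMap.ker_eq_bot]
    exact hanti.injective
  have hrg : S.range = ⊤ := by
    have := hcl.completeSpace_coe
    rw [← S.range.orthogonal_orthogonal, Submodule.eq_top_iff']
    intro v w hw
    have h0 : inner ℂ (S w) w = 0 := hw _ ⟨w, rfl⟩
    have h1 := hSc w
    have h2 : inner ℂ w (S w) = 0 := by
      rw [← inner_conj_symm, h0, map_zero]
    rw [h2, Complex.zero_re] at h1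
    have h3 : ‖w‖ ^ 2 ≤ 0 := by nlinarith [sq_nonneg ‖w‖]
    have h4 : w = 0 := by
      have : ‖w‖ = 0 := by nlinarith [norm_nonneg w, sq_nonneg ‖w‖]
      exact norm_eq_zero.1 this
    rw [h4]
    exact inner_zero_left _
  set e : H ≃L[ℂ] H := ContinuousLinearEquiv.ofBijective S hker hrg with he
  have hex : ∀ x, e x = S x := fun x => rfl
  have hKK : IsCompactOperator (N : H → H) := by
    have h1 : IsCompactOperator ((ContinuousLinearMap.adjoint K) ∘ K) :=
      hK.clm_comp (ContinuousLinearMap.adjoint K)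
    exact h1.smul (D : ℂ)
  have hA : IsCompactOperator ((e.symm : H →L[ℂ] H).comp N) :=
    hKK.clm_comp (e.symm : H →L[ℂ] H)
  rcases hA.hasEigenvalue_or_mem_resolventSet (one_ne_zero (α := ℂ)) with h | h
  · exfalso
    obtain ⟨x, hx⟩ := h.exists_hasEigenvector
    have h1 : e.symm (N x) = (1 : ℂ) • x := hx.apply_eq_smul
    rw [one_smul] at h1
    have h2 : N x = S x := by
      rw [← hex, ← h1, e.apply_symm_apply]
      rw [h1]
    have h3 : T x = 0 := by
      have : S x = T x + N x := rfl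
      rw [this] at h2
      simpa using h2
    exact hx.2 (hi (by rw [h3, map_zero]))
  · rw [spectrum.mem_resolventSet_iff, ContinuousLinearMap.isUnit_iff_bijective] at h
    intro y
    obtain ⟨x, hx⟩ := h.2 (e.symm y)
    refine ⟨x, ?_⟩
    have h1 : x - e.symm (N x) = e.symm y := by
      have : (algebraMap ℂ (H →L[ℂ] H) 1 - (e.symm : H →L[ℂ] H).comp N) x =
        x - e.symm (N x) := by
        simp
      rw [← this]
      exact hx
    have h2 := congrArg e h1
    rw [map_sub, e.apply_symm_apply, e.apply_symm_apply, hex] at h2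
    have h3 : S x = T x + N x := rfl
    rw [h3] at h2
    simpa using h2

theorem main : Pool.Agent.Helper25.FN.S_FRED := by
  intro H H₂ _ _ _ _ _ _ T K c C hc hK hT hi
  exact fredA H H₂ T K c C hc hK hT hi

end Pool.Agent.Helper76.FN.FRED
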